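import Pool.Agent.L5helper98.CQ.Stmts

/-!
# Project CQ: the `k`-th moment
-/

set_option autoImplicit false
set_option linter.all false

namespace Pool.Agent.L5helper19.CQ

open Finset Pool.Agent.L5helper98.CQ
open scoped Classical

noncomputable section

variable {n : ℕ}

/-- the sets which are counted -/
def fam (r : ℕ) (R : Finset (Fin n)) (v : Fin n) : Finset (Finset (Fin n)) :=
  (powersetCard r R).filter (fun K => v ∈ K)

/-- the condition on the other vertices -/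
def noc (ω : Om n) (V2 K : Finset (Fin n)) : Prop := ∀ w ∈ V2, ∃ u ∈ K, ¬ adj ω w u

/-- the pairs in the sets of `𝒮` -/
def prsOf (𝒮 : Finset (Finset (Fin n))) : Finset (Sym2 (Fin n)) := 𝒮.biUnion ins

/-- the weight -/
def wg (p a : ℝ) (𝒮 : Finset (Finset (Fin n))) : ℝ := p ^ (prsOf 𝒮).card * a ^ 𝒮.card

lemma mem_fam {r : ℕ} {R : Finset (Fin n)} {v : Fin n} {K : Finset (Fin n)} :
    K ∈ fam r R v ↔ (K ⊆ R ∧ K.card = r) ∧ v ∈ K := by
  unfold fam
  rw [mem_filter, mem_powersetCard]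

/-- counting sets with given intersection with `W` -/
lemma count_inter (R W : Finset (Fin n)) (r i : ℕ) (hi : i ≤ r) :
    ((powersetCard r R).filter (fun K => (K ∩ W).card = i)).card ≤ W.card ^ i * R.card ^ (r - i) := by
  have h1 : ((powersetCard r R).filter (fun K => (K ∩ W).card = i)).card ≤
      (powersetCard i W ×ˢ powersetCard (r - i) R).card := by
    refine card_le_card_of_injOn (fun K => (K ∩ W, K \ W)) ?_ ?_
    · intro K hK
      rw [mem_coe, mem_filter, mem_powersetCard] at hK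
      rw [mem_coe, mem_product, mem_powersetCard, mem_powersetCard]
      refine ⟨⟨inter_subset_right, hK.2⟩, (sdiff_subset).trans hK.1.1, ?_⟩
      have := card_sdiff_add_card_inter K W
      change (K \ W).card = r - i
      omega
    · intro K _ K' _ h
      simp only [Prod.mk.injEq] at h
      rw [← sdiff_union_inter K W, ← sdiff_union_inter K' W, h.1, h.2]
  refine h1.trans ?_
  rw [card_product, card_powersetCard, card_powersetCard]
  exact Nat.mul_le_mul (Nat.choose_le_pow _ _) (Nat.choose_le_pow _ _)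

/-- the new pairs -/
lemma card_new {𝒮 : Finset (Finset (Fin n))} {v : Fin n} (K : Finset (Fin n)) :
    K.card.choose 2 - (K ∩ insert v (𝒮.biUnion id)).card.choose 2 ≤ (ins K \ prsOf 𝒮).card := by
  have h1 : ins K \ ins (K ∩ insert v (𝒮.biUnion id)) ⊆ ins K \ prsOf 𝒮 := by
    intro e he
    induction e using Sym2.inductionOn with
    | hf a b =>
      rw [mem_sdiff, mem_ins, mem_ins] at he
      rw [mem_sdiff, mem_ins]
      refine ⟨he.1, fun h => he.2 ?_⟩
      unfold prsOf at h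
      rw [mem_biUnion] at h
      obtain ⟨K', hK', h⟩ := h
      rw [mem_ins] at h
      refine ⟨mem_inter.2 ⟨he.1.1, mem_insert_of_mem (mem_biUnion.2 ⟨K', hK', h.1⟩)⟩,
        mem_inter.2 ⟨he.1.2.1, mem_insert_of_mem (mem_biUnion.2 ⟨K', hK', h.2.1⟩)⟩, h.2.2⟩
  refine le_trans ?_ (card_le_card h1)
  rw [← card_ins, ← card_ins]
  exact le_card_sdiff _ _

/-- **One more set.** -/
lemma step {r k : ℕ} {p a : ℝ} {R : Finset (Fin n)} {v : Fin n} (h0 : 0 ≤ p) (h1 : p ≤ 1)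
    (ha : 0 ≤ a) (hr : 2 ≤ r) {𝒮 : Finset (Finset (Fin n))} (h𝒮 : 𝒮 ⊆ fam r R v)
    (hk : 𝒮.card + 1 ≤ k) :
    ∑ K ∈ fam r R v, wg p a (insert K 𝒮) ≤ wg p a 𝒮 *
      ((k : ℝ) + a * ∑ i ∈ Icc 1 r, ((k : ℝ) * r) ^ i * (R.card : ℝ) ^ (r - i) *
            p ^ (r.choose 2 - i.choose 2)) := by
  set W := insert v (𝒮.biUnion id) with hW
  have hWc : W.card ≤ k * r := by
    have e1 : (𝒮.biUnion id).card ≤ 𝒮.card * r :=
      card_biUnion_le_card_mul _ _ _ fun K hK => ((mem_fam.1 (h𝒮 hK)).1.2).le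
    have e2 := card_insert_le v (𝒮.biUnion id)
    have e3 : (𝒮.card + 1) * r ≤ k * r := Nat.mul_le_mul_right r hk
    have e4 : (𝒮.card + 1) * r = 𝒮.card * r + r := by ring
    rw [hW]
    omega
  have hw0 : 0 ≤ wg p a 𝒮 := mul_nonneg (pow_nonneg h0 _) (pow_nonneg ha _)
  -- a new set
  have hnew : ∀ K ∈ fam r R v, K ∉ 𝒮 → wg p a (insert K 𝒮) ≤
      wg p a 𝒮 * (a * p ^ (r.choose 2 - (K ∩ W).card.choose 2)) := by
    intro K hK hKn
    have e1 : (prsOf (insert K 𝒮)).card = (prsOf 𝒮).card + (ins K \ prsOf 𝒮).card := by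
      unfold prsOf
      rw [biUnion_insert, union_comm, ← union_sdiff_self_eq_union,
        card_union_of_disjoint disjoint_sdiff]
    have e2 := card_new (𝒮 := 𝒮) (v := v) K
    rw [(mem_fam.1 hK).1.2] at e2
    unfold wg
    rw [e1, card_insert_of_notMem hKn, pow_add, pow_succ]
    have e3 : p ^ (ins K \ prsOf 𝒮).card ≤ p ^ (r.choose 2 - (K ∩ W).card.choose 2) :=
      pow_le_pow_of_le_one h0 h1 e2
    calc p ^ (prsOf 𝒮).card * p ^ (ins K \ prsOf 𝒮).card * (a ^ 𝒮.card * a)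
        = (p ^ (prsOf 𝒮).card * a ^ 𝒮.card) * (a * p ^ (ins K \ prsOf 𝒮).card) := by ring
      _ ≤ _ := by gcongr
  have hsplit : ∑ K ∈ fam r R v, wg p a (insert K 𝒮) ≤ 𝒮.card * wg p a 𝒮 +
      ∑ K ∈ fam r R v, wg p a 𝒮 * (a * p ^ (r.choose 2 - (K ∩ W).card.choose 2)) := by
    rw [← sum_filter_add_sum_filter_not (fam r R v) (fun K => K ∈ 𝒮)]
    refine add_le_add ?_ ?_
    · have e1 : (fam r R v).filter (fun K => K ∈ 𝒮) = 𝒮 := by
        ext K
        rw [mem_filter]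
        exact ⟨fun h => h.2, fun h => ⟨h𝒮 h, h⟩⟩
      rw [e1, sum_congr rfl fun K hK => by rw [insert_eq_self.2 hK], sum_const, nsmul_eq_mul]
    · refine (sum_le_sum fun K hK => hnew K (mem_filter.1 hK).1 (mem_filter.1 hK).2).trans ?_
      refine sum_le_sum_of_subset_of_nonneg (filter_subset _ _) fun K _ _ => ?_
      positivity
  refine hsplit.trans ?_
  rw [← mul_sum, ← mul_sum, mul_add]
  have hcard : (𝒮.card : ℝ) ≤ k := by exact_mod_cast (by omega : 𝒮.card ≤ k)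
  have hsum : ∑ K ∈ fam r R v, p ^ (r.choose 2 - (K ∩ W).card.choose 2) ≤
      ∑ i ∈ Icc 1 r, ((k : ℝ) * r) ^ i * (R.card : ℝ) ^ (r - i) *
            p ^ (r.choose 2 - i.choose 2) := by
    rw [← sum_fiberwise_of_maps_to (s := fam r R v) (t := Icc 1 r) (g := fun K => (K ∩ W).card)]
    · refine sum_le_sum fun i hi => ?_
      rw [sum_congr rfl fun K hK => by rw [(mem_filter.1 hK).2], sum_const, nsmul_eq_mul]
      have hir := (mem_Icc.1 hi).2
      have e1 : (((fam r R v).filter (fun K => (K ∩ W).card = i)).card : ℝ) ≤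
          ((k : ℝ) * r) ^ i * (R.card : ℝ) ^ (r - i) := by
        have e2 : ((fam r R v).filter (fun K => (K ∩ W).card = i)).card ≤
            W.card ^ i * R.card ^ (r - i) := by
          refine le_trans (card_le_card ?_) (count_inter R W r i hir)
          unfold fam
          intro K hK
          rw [mem_filter, mem_filter] at hK
          exact mem_filter.2 ⟨hK.1.1, hK.2⟩
        have e3 : W.card ^ i * R.card ^ (r - i) ≤ (k * r) ^ i * R.card ^ (r - i) :=
          Nat.mul_le_mul_right _ (Nat.pow_le_pow_left hWc i)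
        exact_mod_cast e2.trans e3
      exact mul_le_mul_of_nonneg_right e1 (pow_nonneg h0 _)
    · intro K hK
      rw [mem_fam] at hK
      refine mem_Icc.2 ⟨?_, ?_⟩
      · exact card_pos.2 ⟨v, mem_inter.2 ⟨hK.2, mem_insert_self _ _⟩⟩
      · exact (card_le_card inter_subset_left).trans hK.1.2.le
  have h2 : (𝒮.card : ℝ) * wg p a 𝒮 ≤ wg p a 𝒮 * k := by
    rw [mul_comm]
    exact mul_le_mul_of_nonneg_left hcard hw0
  refine add_le_add h2 ?_
  exact mul_le_mul_of_nonneg_left (mul_le_mul_of_nonneg_left hsum ha) hw0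

/-- indicator -/
def ind (P : Prop) : ℝ := @ite ℝ P (Classical.propDecidable P) 1 0

lemma ind_pos {P : Prop} (h : P) : ind P = 1 := if_pos h

lemma ind_neg {P : Prop} (h : ¬ P) : ind P = 0 := if_neg h

lemma ind_nonneg (P : Prop) : 0 ≤ ind P := by
  by_cases h : P
  · rw [ind_pos h]; norm_num
  · rw [ind_neg h]

lemma ind_congr {P Q : Prop} (h : P ↔ Q) : ind P = ind Q := by
  rw [propext h]

lemma sum_ind {ι : Type*} (s : Finset ι) (P : ι → Prop) :
    ∑ K ∈ s, ind (P K) = ((s.filter P).card : ℝ) := by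
  unfold ind
  rw [← sum_boole]

lemma prod_ind {ι : Type*} (s : Finset ι) (P : ι → Prop) :
    ∏ K ∈ s, ind (P K) = ind (∀ K ∈ s, P K) := by
  by_cases h : ∀ K ∈ s, P K
  · rw [ind_pos h]
    exact prod_eq_one fun K hK => ind_pos (h K hK)
  · rw [ind_neg h]
    push Not at h
    obtain ⟨K, hK, h⟩ := h
    exact prod_eq_zero hK (ind_neg h)

lemma Pb_eq (p : ℝ) (A : Om n → Prop) : Pb p A = Ex p (fun ω => ind (A ω)) := rfl

/-- the number of the events, Bonferroni -/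
lemma bonf {ι : Type*} (s : Finset ι) (P : ι → Prop) :
    (∑ K ∈ s, ind (P K)) -
      ∑ x ∈ s.offDiag, ind (P x.1 ∧ P x.2) ≤
      ind (∃ K ∈ s, P K) := by
  have h1 : ∑ K ∈ s, ind (P K) = ((s.filter P).card : ℝ) := by
    exact sum_ind _ _
  have h2 : ∑ x ∈ s.offDiag, ind (P x.1 ∧ P x.2) =
      (((s.filter P).offDiag.card : ℕ) : ℝ) := by
    rw [sum_ind]
    congr 2
    ext x
    simp only [mem_filter, mem_offDiag]
    tauto
  rw [h1, h2, offDiag_card]
  have h3 : (((s.filter P).card * (s.filter P).card - (s.filter P).card : ℕ) : ℝ) =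
      ((s.filter P).card : ℝ) * (s.filter P).card - (s.filter P).card := by
    rw [Nat.cast_sub (Nat.le_mul_self _)]
    push_cast
    ring
  rw [h3]
  by_cases h : ∃ K ∈ s, P K
  · rw [ind_pos h]
    nlinarith [sq_nonneg (((s.filter P).card : ℝ) - 1)]
  · rw [ind_neg h]
    have h4 : (s.filter P).card = 0 := by
      rw [card_eq_zero, filter_eq_empty_iff]
      intro K hK hP
      exact h ⟨K, hK, hP⟩
    rw [h4]
    norm_num

/-- one vertex outside -/
lemma Pb_vertex {r k : ℕ} {p : ℝ} {R : Finset (Fin n)} (h0 : 0 ≤ p) (h1 : p ≤ 1)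
    {𝒮 : Finset (Finset (Fin n))} (h𝒮 : ∀ K ∈ 𝒮, K ⊆ R ∧ K.card = r) (hk : 𝒮.card ≤ k)
    {w : Fin n} (hw : w ∉ R) :
    Pb p (fun ω : Om n => ∀ K ∈ 𝒮, ∃ u ∈ K, ¬ adj ω w u) ≤
      Real.exp (-(𝒮.card * p ^ r) + (k : ℝ) ^ 2 * p ^ (r + 1)) := by
  have hiff : (fun ω : Om n => ∀ K ∈ 𝒮, ∃ u ∈ K, ¬ adj ω w u) =
      fun ω : Om n => ¬ ∃ K ∈ 𝒮, K ⊆ nb ω w R := by
    funext ω
    apply propext
    push Not
    refine forall₂_congr fun K hK => ?_
    rw [not_subset]
    refine exists_congr fun u => and_congr_right fun hu => ?_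
    rw [mem_nb]
    unfold adj
    have := (h𝒮 K hK).1 hu
    tauto
  rw [hiff, Pb_not]
  have hlow : (𝒮.card : ℝ) * p ^ r - (k : ℝ) ^ 2 * p ^ (r + 1) ≤
      Pb p (fun ω : Om n => ∃ K ∈ 𝒮, K ⊆ nb ω w R) := by
    have e1 : Ex p (fun ω : Om n => (∑ K ∈ 𝒮, ind (K ⊆ nb ω w R)) -
        ∑ x ∈ 𝒮.offDiag, ind (x.1 ⊆ nb ω w R ∧ x.2 ⊆ nb ω w R)) ≤
        Pb p (fun ω : Om n => ∃ K ∈ 𝒮, K ⊆ nb ω w R) :=
      Ex_mono h0 h1 fun ω => bonf 𝒮 (fun K => K ⊆ nb ω w R)
    refine le_trans ?_ e1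
    rw [Ex_sub, Ex_sum, Ex_sum]
    have e2 : ∑ K ∈ 𝒮, Ex p (fun ω : Om n => ind (K ⊆ nb ω w R)) =
        𝒮.card * p ^ r := by
      have e3 : ∀ K ∈ 𝒮, Ex p (fun ω : Om n => ind (K ⊆ nb ω w R)) = p ^ r := by
        intro K hK
        have e4 := Pb_subset_nb p w R K (h𝒮 K hK).1 (fun h => hw ((h𝒮 K hK).1 h))
        rw [(h𝒮 K hK).2] at e4
        exact e4
      rw [sum_congr rfl e3, sum_const, nsmul_eq_mul]
    have e5 : ∑ x ∈ 𝒮.offDiag, Ex p (fun ω : Om n =>
        ind (x.1 ⊆ nb ω w R ∧ x.2 ⊆ nb ω w R)) ≤ (k : ℝ) ^ 2 * p ^ (r + 1) := by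
      have e6 : ∀ x ∈ 𝒮.offDiag, Ex p (fun ω : Om n =>
          ind (x.1 ⊆ nb ω w R ∧ x.2 ⊆ nb ω w R)) ≤ p ^ (r + 1) := by
        intro x hx
        rw [mem_offDiag] at hx
        obtain ⟨hx1, hx2, hne⟩ := hx
        have e7 := Pb_subset_nb p w R (x.1 ∪ x.2)
          (union_subset (h𝒮 _ hx1).1 (h𝒮 _ hx2).1)
          (fun h => hw ((union_subset (h𝒮 _ hx1).1 (h𝒮 _ hx2).1) h))
        have e8 : r + 1 ≤ (x.1 ∪ x.2).card := by
          by_contra hlt
          push Not at hlt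
          have f1 : x.1 = x.1 ∪ x.2 := eq_of_subset_of_card_le subset_union_left (by
            rw [(h𝒮 _ hx1).2]; omega)
          have f2 : x.2 = x.1 ∪ x.2 := eq_of_subset_of_card_le subset_union_right (by
            rw [(h𝒮 _ hx2).2]; omega)
          exact hne (f1.trans f2.symm)
        have e9 : (fun ω : Om n => x.1 ∪ x.2 ⊆ nb ω w R) =
            fun ω : Om n => x.1 ⊆ nb ω w R ∧ x.2 ⊆ nb ω w R := by
          funext ω
          exact propext union_subset_iff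
        rw [e9] at e7
        change Pb p (fun ω : Om n => x.1 ⊆ nb ω w R ∧ x.2 ⊆ nb ω w R) ≤ _
        rw [e7]
        exact pow_le_pow_of_le_one h0 h1 e8
      refine (sum_le_sum e6).trans ?_
      rw [sum_const, nsmul_eq_mul, offDiag_card]
      refine mul_le_mul_of_nonneg_right ?_ (pow_nonneg h0 _)
      have e10 : 𝒮.card * 𝒮.card - 𝒮.card ≤ k ^ 2 := by
        have : 𝒮.card * 𝒮.card ≤ k * k := Nat.mul_le_mul hk hk
        rw [sq]
        omega
      exact_mod_cast e10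
    linarith
  have h2 := Real.add_one_le_exp (-(𝒮.card * p ^ r) + (k : ℝ) ^ 2 * p ^ (r + 1))
  linarith

/-- **The probability of finitely many sets.** -/
lemma Pb_sets {r k : ℕ} {p : ℝ} {R V2 : Finset (Fin n)} (h0 : 0 ≤ p) (h1 : p ≤ 1)
    {𝒮 : Finset (Finset (Fin n))} (h𝒮 : ∀ K ∈ 𝒮, K ⊆ R ∧ K.card = r) (hk : 𝒮.card ≤ k)
    (hdis : Disjoint R V2) :
    Pb p (fun ω : Om n => ∀ K ∈ 𝒮, cl ω K ∧ noc ω V2 K) ≤
      Real.exp ((k : ℝ) ^ 2 * V2.card * p ^ (r + 1)) *
        wg p (Real.exp (- (V2.card * p ^ r))) 𝒮 := by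
  set U := prsOf 𝒮 with hU
  have hUR : ∀ e ∈ U, e ∈ ins R := by
    intro e he
    obtain ⟨K, hK, he⟩ := mem_biUnion.1 he
    induction e using Sym2.inductionOn with
    | hf a b =>
      rw [mem_ins] at he ⊢
      exact ⟨(h𝒮 K hK).1 he.1, (h𝒮 K hK).1 he.2.1, he.2.2⟩
  -- the indicator as a product
  have hprod : (fun ω : Om n => ind (∀ K ∈ 𝒮, cl ω K ∧ noc ω V2 K)) =
      fun ω : Om n => ind (U ⊆ ω) *
        ∏ w ∈ V2, ind (∀ K ∈ 𝒮, ∃ u ∈ K, ¬ adj ω w u) := by
    funext ω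
    have e1 : (∀ K ∈ 𝒮, cl ω K ∧ noc ω V2 K) ↔
        (U ⊆ ω ∧ ∀ w ∈ V2, ∀ K ∈ 𝒮, ∃ u ∈ K, ¬ adj ω w u) := by
      unfold noc
      rw [hU]
      unfold prsOf
      rw [biUnion_subset]
      constructor
      · intro h
        exact ⟨fun K hK => (cl_iff ω K).1 (h K hK).1, fun w hw K hK => (h K hK).2 w hw⟩
      · intro h K hK
        exact ⟨(cl_iff ω K).2 (h.1 K hK), fun w hw => h.2 w hw K hK⟩
    rw [prod_ind]
    by_cases ha : U ⊆ ω
    · by_cases hb : ∀ w ∈ V2, ∀ K ∈ 𝒮, ∃ u ∈ K, ¬ adj ω w u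
      · rw [ind_pos (e1.2 ⟨ha, hb⟩), ind_pos ha, ind_pos hb, mul_one]
      · rw [ind_neg (fun h => hb (e1.1 h).2), ind_neg hb, mul_zero]
    · rw [ind_neg (fun h => ha (e1.1 h).1), ind_neg ha, zero_mul]
  have hstar : ∀ w ∈ V2, ∀ e ∈ star w R, e ∉ U := by
    intro w hw e he heU
    obtain ⟨u, hu, rfl⟩ := (mem_star w R e).1 he
    have := (mem_ins R w u).1 (hUR _ heU)
    exact disjoint_left.1 hdis this.1 hw
  -- dependence
  have hdepw : ∀ w ∈ V2, Dep (fun ω : Om n =>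
      ind (∀ K ∈ 𝒮, ∃ u ∈ K, ¬ adj ω w u)) (star w R) := by
    intro w hw ω ω' h
    have e1 : ∀ u ∈ R, (adj ω w u ↔ adj ω' w u) := by
      intro u hu
      have e2 := Finset.ext_iff.1 h s(w, u)
      simp only [mem_inter, mem_star] at e2
      unfold adj
      constructor
      · rintro ⟨h1, h2⟩
        exact ⟨h1, (e2.1 ⟨h2, u, hu, rfl⟩).1⟩
      · rintro ⟨h1, h2⟩
        exact ⟨h1, (e2.2 ⟨h2, u, hu, rfl⟩).1⟩
    have e3 : (∀ K ∈ 𝒮, ∃ u ∈ K, ¬ adj ω w u) ↔ (∀ K ∈ 𝒮, ∃ u ∈ K, ¬ adj ω' w u) := by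
      refine forall₂_congr fun K hK => exists_congr fun u => and_congr_right fun hu => ?_
      rw [e1 u ((h𝒮 K hK).1 hu)]
    simp only [e3]
  change Ex p (fun ω : Om n => ind (∀ K ∈ 𝒮, cl ω K ∧ noc ω V2 K)) ≤ _
  rw [hprod, Ex_mul_of_dep p U, Ex_prod_of_dep p V2 (fun w => star w R)]
  · have e1 : Ex p (fun ω : Om n => ind (U ⊆ ω)) = p ^ U.card := Pb_subset p U
    rw [e1]
    have e2 : ∏ w ∈ V2, Ex p (fun ω : Om n =>
        ind (∀ K ∈ 𝒮, ∃ u ∈ K, ¬ adj ω w u)) ≤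
        ∏ w ∈ V2, Real.exp (-(𝒮.card * p ^ r) + (k : ℝ) ^ 2 * p ^ (r + 1)) := by
      refine prod_le_prod (fun w _ => Ex_nonneg h0 h1 fun ω => ind_nonneg _) ?_
      intro w hw
      exact Pb_vertex h0 h1 h𝒮 hk (fun h => disjoint_left.1 hdis h hw)
    rw [prod_const, ← Real.exp_nat_mul] at e2
    refine (mul_le_mul_of_nonneg_left e2 (pow_nonneg h0 _)).trans (le_of_eq ?_)
    unfold wg
    rw [← hU, ← Real.exp_nat_mul, mul_left_comm, ← Real.exp_add]
    congr 2
    ring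
  · exact hdepw
  · intro w hw w' hw' hne
    exact star_disjoint w w' R (fun h => disjoint_left.1 hdis h hw) hne
  · intro ω ω' h
    have e1 : U ⊆ ω ↔ U ⊆ ω' := by
      constructor
      · intro h1 e he
        have := Finset.ext_iff.1 h e
        simp only [mem_inter] at this
        exact (this.1 ⟨h1 he, he⟩).1
      · intro h1 e he
        have := Finset.ext_iff.1 h e
        simp only [mem_inter] at this
        exact (this.2 ⟨h1 he, he⟩).1
    simp only [e1]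
  · intro ω ω' h
    have hp : ∀ e, e ∉ U → (e ∈ ω ↔ e ∈ ω') := by
      intro e he
      have h1 := Finset.ext_iff.1 h e
      simpa [he] using h1
    refine prod_congr rfl fun w hw => ?_
    refine hdepw w hw ω ω' ?_
    ext e
    simp only [mem_inter]
    constructor
    · rintro ⟨h1, h2⟩
      exact ⟨(hp e (hstar w hw e h2)).1 h1, h2⟩
    · rintro ⟨h1, h2⟩
      exact ⟨(hp e (hstar w hw e h2)).2 h1, h2⟩

/-- **TaskMom.** -/
theorem taskMom : TaskMom := by
  intro n r k p R V2 v h0 h1 hk hr hv hdis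
  set a := Real.exp (- (V2.card * p ^ r)) with ha
  set C := Real.exp ((k : ℝ) ^ 2 * V2.card * p ^ (r + 1)) with hC
  set B := (k : ℝ) + a * ∑ i ∈ Icc 1 r, ((k : ℝ) * r) ^ i * (R.card : ℝ) ^ (r - i) *
            p ^ (r.choose 2 - i.choose 2) with hB
  have ha0 : 0 ≤ a := (Real.exp_pos _).le
  have hC0 : 0 ≤ C := (Real.exp_pos _).le
  have hB0 : 0 ≤ B := by
    rw [hB]
    positivity
  have hX : ∀ ω : Om n, (((hyp ω r R V2).filter (fun K => v ∈ K)).card : ℝ) =
      ∑ K ∈ fam r R v, ind (cl ω K ∧ noc ω V2 K) := by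
    intro ω
    rw [sum_ind]
    congr 2
    unfold hyp fam noc
    ext K
    simp only [mem_filter]
    tauto
  have key : ∀ l : ℕ, ∀ 𝒮 : Finset (Finset (Fin n)), 𝒮 ⊆ fam r R v → 𝒮.card + l ≤ k →
      Ex p (fun ω : Om n => ind (∀ K ∈ 𝒮, cl ω K ∧ noc ω V2 K) *
        (((hyp ω r R V2).filter (fun K => v ∈ K)).card : ℝ) ^ l) ≤ C * (wg p a 𝒮 * B ^ l) := by
    intro l
    induction l with
    | zero =>
      intro 𝒮 h𝒮 hl
      simp only [pow_zero, mul_one]
      exact Pb_sets h0 h1 (fun K hK => (mem_fam.1 (h𝒮 hK)).1) (by omega) hdis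
    | succ l ih =>
      intro 𝒮 h𝒮 hl
      have e1 : ∀ ω : Om n, ind (∀ K ∈ 𝒮, cl ω K ∧ noc ω V2 K) *
          (((hyp ω r R V2).filter (fun K => v ∈ K)).card : ℝ) ^ (l + 1) =
          ∑ K ∈ fam r R v, ind (∀ K' ∈ insert K 𝒮, cl ω K' ∧ noc ω V2 K') *
            (((hyp ω r R V2).filter (fun K => v ∈ K)).card : ℝ) ^ l := by
        intro ω
        rw [← sum_mul, pow_succ, ← mul_assoc, mul_right_comm]
        congr 1
        rw [hX, mul_sum]
        refine sum_congr rfl fun K hK => ?_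
        by_cases hA : ∀ K ∈ 𝒮, cl ω K ∧ noc ω V2 K
        · by_cases hb : cl ω K ∧ noc ω V2 K
          · rw [ind_pos hA, ind_pos hb, ind_pos, mul_one]
            intro K' hK'
            rcases mem_insert.1 hK' with rfl | h
            · exact hb
            · exact hA K' h
          · rw [ind_neg hb, mul_zero, ind_neg (P := ∀ K' ∈ insert K 𝒮, cl ω K' ∧ noc ω V2 K')
              (fun h => hb (h K (mem_insert_self _ _)))]
        · rw [ind_neg hA, zero_mul, ind_neg (P := ∀ K' ∈ insert K 𝒮, cl ω K' ∧ noc ω V2 K')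
              (fun h => hA fun K' hK' => h K' (mem_insert_of_mem hK'))]
      rw [show (fun ω : Om n => ind (∀ K ∈ 𝒮, cl ω K ∧ noc ω V2 K) *
          (((hyp ω r R V2).filter (fun K => v ∈ K)).card : ℝ) ^ (l + 1)) = _ from funext e1,
        Ex_sum]
      have e2 : ∀ K ∈ fam r R v, Ex p (fun ω : Om n =>
          ind (∀ K' ∈ insert K 𝒮, cl ω K' ∧ noc ω V2 K') *
            (((hyp ω r R V2).filter (fun K => v ∈ K)).card : ℝ) ^ l) ≤
          C * (wg p a (insert K 𝒮) * B ^ l) := by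
        intro K hK
        refine ih (insert K 𝒮) (insert_subset hK h𝒮) ?_
        have := card_insert_le K 𝒮
        omega
      refine (sum_le_sum e2).trans ?_
      rw [← mul_sum, ← sum_mul]
      refine mul_le_mul_of_nonneg_left ?_ hC0
      rw [pow_succ', ← mul_assoc]
      refine mul_le_mul_of_nonneg_right ?_ (pow_nonneg hB0 _)
      exact step h0 h1 ha0 hr h𝒮 (by omega)
  have h2 := key k ∅ (empty_subset _) (by simp)
  have h3 : wg p a (∅ : Finset (Finset (Fin n))) = 1 := by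
    unfold wg prsOf
    simp
  rw [h3, one_mul] at h2
  have h4 : ∀ ω : Om n, ind (∀ K ∈ (∅ : Finset (Finset (Fin n))), cl ω K ∧ noc ω V2 K) = 1 :=
    fun ω => ind_pos (by simp)
  simp only [h4, one_mul] at h2
  exact h2

end

end Pool.Agent.L5helper19.CQ
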